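import Pool.Agent.R137.Words
import Pool.Agent.R137.Sector
import Pool.Agent.R137.Interl

/-!
# Interlacing of specialised multivariate Eulerian polynomials
-/

set_option autoImplicit false

namespace Pool.Agent.Results.MP_9d2565_co.Interlacing

open Polynomial ComplexConjugate Pool.Agent.R137.Words Pool.Agent.R137.Sector Pool.Agent.R137.Interl

/-- The descent set of a permutation: the positions `k ∈ {1, ..., n - 1}` with `π(k) > π(k+1)`, where
`π(k)` is the `k`-th letter (position `k` is the index `k - 1` of `Fin n`). -/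
def DES {n : ℕ} (π : Equiv.Perm (Fin n)) : Finset ℕ :=
  (Finset.range n).filter fun k => ∃ h : 1 ≤ k ∧ k < n, π ⟨k, h.2⟩ < π ⟨k - 1, by omega⟩

/-- `E_n = ∑_π ∏_{k ∈ DES π} x_k` -/
noncomputable def E (n : ℕ) : MvPolynomial ℕ ℝ :=
  ∑ π : Equiv.Perm (Fin n), ∏ k ∈ DES π, MvPolynomial.X k

/-- `e_n(t) = E_n(lam_1 t, lam_2 t, ...)` -/
noncomputable def e (lam : ℕ → ℝ) (n : ℕ) : ℝ[X] :=
  MvPolynomial.aeval (fun i => C (lam i) * X) (E n)

/-- `l` is the weakly decreasing list of all the roots of `f` with multiplicity; they are all real and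
nonpositive -/
def RootList (f : ℝ[X]) (l : List ℝ) : Prop :=
  l.Pairwise (· ≥ ·) ∧ (∀ r ∈ l, r ≤ 0) ∧ (l : Multiset ℝ) = f.roots ∧ l.length = f.natDegree

/-- `f ⪯ g`: both have only real nonpositive roots, and for the decreasing root lists `a` of `f` and `b`
of `g` one has `b_1 ≥ a_1 ≥ b_2 ≥ a_2 ≥ ⋯` -/
def Interlaces (f g : ℝ[X]) : Prop :=
  ∃ a b : List ℝ, RootList f a ∧ RootList g b ∧
    (∀ (i : ℕ) (h1 : i < a.length) (h2 : i < b.length), a[i] ≤ b[i]) ∧
    ∀ (i : ℕ) (h1 : i < a.length) (h2 : i + 1 < b.length), b[i + 1] ≤ a[i]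

/-- the transfer recursion -/
def G {R : Type*} [CommSemiring R] (y : ℕ → R) : ℕ → ℕ → R
  | 0, _ => 1
  | n + 1, p => ∑ i ∈ Finset.Ico p (n + 1), G y n i + y (n + 1) * ∑ i ∈ Finset.range p, G y n i

theorem sum_wt {α R : Type*} [LinearOrder α] [CommSemiring R] (y : ℕ → R) (n : ℕ) (V : Finset α)
    (hV : V.card = n) (a : α) (ha : a ∉ V) :
    ∑ w ∈ words n V, wt y (a :: w) = G y n (V.filter (· < a)).card := by
  induction n generalizing V a with
  | zero => rw [sum_words_zero, G, wt]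
  | succ n ih =>
    rw [sum_words_succ, G]
    have h1 : ∀ b ∈ V, ∑ w ∈ words n (V.erase b), wt y (a :: b :: w) =
        (if b < a then y (n + 1) else 1) * G y n (V.filter (· < b)).card := by
      intro b hb
      have hVb : (V.erase b).card = n := by rw [Finset.card_erase_of_mem hb, hV]; rfl
      have h2 := ih (V.erase b) hVb b (Finset.notMem_erase b V)
      have h3 : (V.erase b).filter (· < b) = V.filter (· < b) := by
        ext x
        simp only [Finset.mem_filter, Finset.mem_erase]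
        constructor
        · rintro ⟨⟨_, h⟩, h'⟩
          exact ⟨h, h'⟩
        · rintro ⟨h, h'⟩
          exact ⟨⟨ne_of_lt h', h⟩, h'⟩
      rw [h3] at h2
      rw [← h2, Finset.mul_sum]
      refine Finset.sum_congr rfl fun w hw => ?_
      rw [mem_words n _ hVb] at hw
      rw [wt]
      have hlen : w.length = n := by
        rw [← List.toFinset_card_of_nodup hw.1, hw.2, hVb]
      rw [hlen]
    rw [Finset.sum_congr rfl h1, ← Finset.sum_filter_add_sum_filter_not V (a < ·)]
    congr 1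
    · rw [← hV, ← sum_rank_above V a ha]
      refine Finset.sum_congr rfl fun b hb => ?_
      rw [if_neg (not_lt.2 (Finset.mem_filter.1 hb).2.le), one_mul]
    · have h5 : V.filter (fun b => ¬ a < b) = V.filter (· < a) := by
        refine Finset.filter_congr fun b hb => ?_
        rw [not_lt]
        exact ⟨fun h => lt_of_le_of_ne h (fun h' => ha (h' ▸ hb)), fun h => h.le⟩
      rw [h5, ← sum_rank_below V a, Finset.mul_sum]
      refine Finset.sum_congr rfl fun b hb => ?_
      rw [if_pos (Finset.mem_filter.1 hb).2]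

/-- the relation is preserved by the recursion -/
theorem G_rel {z : ℂ} (hz : 0 ≤ z.im) (μ : ℕ → ℝ) (hμ : ∀ k, 0 ≤ μ k) (n : ℕ) :
    ∀ p q, p ≤ q → q ≤ n → Rel z (G (fun k => (μ k : ℂ) * z) n p) (G (fun k => (μ k : ℂ) * z) n q) := by
  induction n with
  | zero =>
    intro p q _ _
    exact rel_self hz _
  | succ n ih =>
    intro p q hpq hq
    rw [G, G]
    set y := (fun k => (μ k : ℂ) * z) with hy
    have hsplit1 : ∑ i ∈ Finset.Ico p (n + 1), G y n i =
        ∑ i ∈ Finset.Ico p q, G y n i + ∑ i ∈ Finset.Ico q (n + 1), G y n i :=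
      (Finset.sum_Ico_consecutive _ hpq hq).symm
    have hsplit2 : ∑ i ∈ Finset.range q, G y n i =
        ∑ i ∈ Finset.range p, G y n i + ∑ i ∈ Finset.Ico p q, G y n i :=
      (Finset.sum_range_add_sum_Ico _ hpq).symm
    rw [hsplit1, hsplit2]
    set L := ∑ i ∈ Finset.range p, G y n i with hL
    set M := ∑ i ∈ Finset.Ico p q, G y n i with hM
    set H := ∑ i ∈ Finset.Ico q (n + 1), G y n i with hH
    have hMH : Rel z M H := Rel.sum_left fun i hi => Rel.sum_right fun j hj => by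
      rw [Finset.mem_Ico] at hi hj
      exact ih i j (by omega) (by omega)
    have hLM : Rel z L M := Rel.sum_left fun i hi => Rel.sum_right fun j hj => by
      rw [Finset.mem_range] at hi
      rw [Finset.mem_Ico] at hj
      exact ih i j (by omega) (by omega)
    have hML : Rel z M (y (n + 1) * L) := hLM.rot (hμ (n + 1))
    have hHM : Rel z H (y (n + 1) * M) := hMH.rot (hμ (n + 1))
    have hMM : Rel z M (y (n + 1) * M) := rel_smul_self hz (hμ (n + 1)) M
    have hyLM : Rel z (y (n + 1) * L) (y (n + 1) * M) := hLM.mul (y (n + 1))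
    have e1 : M + H + y (n + 1) * L = M + (H + y (n + 1) * L) := by ring
    have e2 : H + y (n + 1) * (L + M) = H + y (n + 1) * L + y (n + 1) * M := by ring
    rw [e1, e2]
    refine Rel.add_left ?_ ?_
    · exact Rel.add_right (Rel.add_right hMH hML) hMM
    · exact Rel.add_right (rel_self hz _) (Rel.add_left hHM hyLM)

theorem G_succ_zero {R : Type*} [CommSemiring R] (y : ℕ → R) (n : ℕ) :
    G y (n + 1) 0 = G y n 0 + ∑ i ∈ Finset.Ico 1 (n + 1), G y n i := by
  rw [G, Finset.range_zero, Finset.sum_empty, mul_zero, add_zero,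
    Finset.sum_eq_sum_Ico_succ_bot (Nat.succ_pos n)]

theorem G_ne_zero {z : ℂ} (hz : 0 < z.im) (μ : ℕ → ℝ) (hμ : ∀ k, 0 ≤ μ k) (n : ℕ) :
    G (fun k => (μ k : ℂ) * z) n 0 ≠ 0 := by
  induction n with
  | zero =>
    rw [G]
    exact one_ne_zero
  | succ n ih =>
    rw [G_succ_zero]
    refine Rel.add_ne_zero hz (Rel.sum_right fun i hi => ?_) ih
    rw [Finset.mem_Ico] at hi
    exact G_rel hz.le μ hμ n 0 i (Nat.zero_le i) (by omega)

theorem G_rel_succ {z : ℂ} (hz : 0 ≤ z.im) (μ : ℕ → ℝ) (hμ : ∀ k, 0 ≤ μ k) (n : ℕ) :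
    Rel z (G (fun k => (μ k : ℂ) * z) n 0) (G (fun k => (μ k : ℂ) * z) (n + 1) 0) := by
  rw [G_succ_zero]
  refine Rel.add_right (rel_self hz _) (Rel.sum_right fun i hi => ?_)
  rw [Finset.mem_Ico] at hi
  exact G_rel hz μ hμ n 0 i (Nat.zero_le i) (by omega)

/-- reversal and complementation -/
def rc {n : ℕ} (π : Equiv.Perm (Fin n)) : Equiv.Perm (Fin n) :=
  (Fin.revPerm.trans π).trans Fin.revPerm

theorem rc_apply {n : ℕ} (π : Equiv.Perm (Fin n)) (i : Fin n) : rc π i = (π i.rev).rev := by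
  simp [rc]

theorem rc_rc {n : ℕ} (π : Equiv.Perm (Fin n)) : rc (rc π) = π := by
  ext i
  simp [rc_apply]

theorem mem_DES {n : ℕ} (π : Equiv.Perm (Fin n)) (k : ℕ) :
    k ∈ DES π ↔ ∃ h : 1 ≤ k ∧ k < n, π ⟨k, h.2⟩ < π ⟨k - 1, by omega⟩ := by
  unfold DES
  rw [Finset.mem_filter, Finset.mem_range]
  constructor
  · rintro ⟨_, h⟩
    exact h
  · rintro ⟨h, h'⟩
    exact ⟨h.2, h, h'⟩

theorem mem_DES_rc {n : ℕ} (π : Equiv.Perm (Fin n)) (k : ℕ) (hk : 1 ≤ k ∧ k < n) :
    k ∈ DES (rc π) ↔ n - k ∈ DES π := by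
  rw [mem_DES, mem_DES]
  have e1 : (⟨k, hk.2⟩ : Fin n).rev = ⟨n - k - 1, by omega⟩ := by
    ext
    simp [Fin.val_rev]
    omega
  have e2 : (⟨k - 1, by omega⟩ : Fin n).rev = ⟨n - k, by omega⟩ := by
    ext
    simp only [Fin.val_rev]
    omega
  constructor
  · rintro ⟨_, h⟩
    rw [rc_apply, rc_apply, Fin.rev_lt_rev, e1, e2] at h
    exact ⟨by omega, h⟩
  · rintro ⟨_, h⟩
    refine ⟨hk, ?_⟩
    rw [rc_apply, rc_apply, Fin.rev_lt_rev, e1, e2]
    exact h

theorem prod_DES_rc {R : Type*} [CommSemiring R] (x : ℕ → R) {n : ℕ} (π : Equiv.Perm (Fin n)) :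
    ∏ k ∈ DES (rc π), x k = ∏ k ∈ DES π, x (n - k) := by
  have hb : ∀ (σ : Equiv.Perm (Fin n)) k, k ∈ DES σ → 1 ≤ k ∧ k < n := fun σ k hk =>
    ((mem_DES σ k).1 hk).1
  refine Finset.prod_bij' (fun k _ => n - k) (fun k _ => n - k) ?_ ?_ ?_ ?_ ?_
  · intro k hk
    exact (mem_DES_rc π k (hb _ _ hk)).1 hk
  · intro k hk
    have := hb _ _ hk
    rw [mem_DES_rc π (n - k) (by omega)]
    have h : n - (n - k) = k := by omega
    rw [h]
    exact hk
  · intro k hk
    have := hb _ _ hk
    change n - (n - k) = k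
    omega
  · intro k hk
    have := hb _ _ hk
    change n - (n - k) = k
    omega
  · intro k hk
    have := hb _ _ hk
    have h : n - (n - k) = k := by omega
    rw [h]

theorem prod_DES {R : Type*} [CommSemiring R] (x : ℕ → R) {n : ℕ} (π : Equiv.Perm (Fin (n + 1))) :
    ∏ k ∈ DES π, x k = wt (fun j => x (n + 1 - j)) (List.ofFn π) := by
  rw [wt_eq _ 0, DES, Finset.prod_filter, List.length_ofFn, Finset.prod_range_succ']
  rw [if_neg (by simp), mul_one, Nat.add_sub_cancel]
  refine Finset.prod_congr rfl fun k hk => ?_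
  rw [Finset.mem_range] at hk
  have h1 : n + 1 - (n - k) = k + 1 := by omega
  rw [h1]
  refine if_congr ?_ rfl rfl
  rw [List.getD_eq_getElem _ _ (by simp; omega), List.getD_eq_getElem _ _ (by simp; omega),
    List.getElem_ofFn, List.getElem_ofFn]
  constructor
  · rintro ⟨h, h'⟩
    simpa using h'
  · intro h
    exact ⟨⟨by omega, by omega⟩, by simpa using h⟩

theorem wt_congr {R α : Type*} [LinearOrder α] [CommSemiring R] (y y' : ℕ → R) (w : List α)
    (h : ∀ j, 1 ≤ j → j < w.length → y j = y' j) : wt y w = wt y' w := by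
  match w, h with
  | [], _ => rfl
  | [_], _ => rfl
  | a :: b :: w, h =>
    rw [wt, wt, wt_congr y y' (b :: w) (fun j h1 h2 => h j h1 (by
      simp only [List.length_cons] at h2 ⊢; omega)),
      h (w.length + 1) (by omega) (by simp only [List.length_cons]; omega)]

/-- the generating function in terms of the transfer recursion -/
theorem sum_eq_G {R : Type*} [CommSemiring R] (x : ℕ → R) (n : ℕ) :
    ∑ π : Equiv.Perm (Fin (n + 1)), ∏ k ∈ DES π, x k = G x (n + 1) 0 := by
  have h0 : ∑ π : Equiv.Perm (Fin (n + 1)), ∏ k ∈ DES π, x k =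
      ∑ π : Equiv.Perm (Fin (n + 1)), wt x (List.ofFn π) := by
    rw [← Function.Bijective.sum_comp (Function.Involutive.bijective rc_rc)
      (fun π : Equiv.Perm (Fin (n + 1)) => ∏ k ∈ DES π, x k)]
    refine Finset.sum_congr rfl fun π _ => ?_
    rw [prod_DES_rc, prod_DES (fun k => x (n + 1 - k))]
    apply wt_congr
    intro j h1 h2
    rw [List.length_ofFn] at h2
    have h : n + 1 - (n + 1 - j) = j := by omega
    rw [h]
  rw [h0, sum_perm (n + 1) (fun w => wt x w), sum_words_succ, G, Finset.range_zero,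
    Finset.sum_empty, mul_zero, add_zero, ← Finset.range_eq_Ico]
  have hr := sum_rank (Finset.univ : Finset (Fin (n + 1))) (fun i => G x n i)
  rw [Finset.card_univ, Fintype.card_fin] at hr
  rw [← hr]
  refine Finset.sum_congr rfl fun b _ => ?_
  rw [sum_wt x n _ (by simp) b (Finset.notMem_erase _ _)]
  congr 2
  ext c
  simp only [Finset.mem_filter, Finset.mem_erase, Finset.mem_univ, and_true, true_and]
  constructor
  · rintro ⟨_, h⟩
    exact h
  · intro h
    exact ⟨ne_of_lt h, h⟩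

theorem e_eq (lam : ℕ → ℝ) (n : ℕ) : e lam (n + 1) = G (fun j => C (lam j) * X) (n + 1) 0 := by
  rw [e, E, map_sum]
  simp only [map_prod, MvPolynomial.aeval_X]
  exact sum_eq_G (fun i => C (lam i) * X) n

theorem aeval_e (lam : ℕ → ℝ) (n : ℕ) (z : ℂ) :
    aeval z (e lam (n + 1)) = G (fun j => (lam j : ℂ) * z) (n + 1) 0 := by
  rw [e, E, map_sum, map_sum]
  simp only [map_prod, MvPolynomial.aeval_X, map_mul, aeval_C, aeval_X]
  exact sum_eq_G (fun i => (lam i : ℂ) * z) n

theorem G_coeff_nonneg (lam : ℕ → ℝ) (hlam : ∀ i, 0 < lam i) (n : ℕ) :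
    ∀ p k, 0 ≤ (G (fun j => C (lam j) * X) n p : ℝ[X]).coeff k := by
  induction n with
  | zero =>
    intro p k
    rw [G, coeff_one]
    split_ifs <;> norm_num
  | succ n ih =>
    intro p k
    rw [G, coeff_add, finsetSum_coeff]
    refine add_nonneg (Finset.sum_nonneg fun i _ => ih i k) ?_
    rw [mul_assoc, coeff_C_mul]
    refine mul_nonneg (hlam _).le ?_
    cases k with
    | zero => simp
    | succ k =>
      rw [coeff_X_mul, finsetSum_coeff]
      exact Finset.sum_nonneg fun i _ => ih i k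

theorem G_coeff_zero (lam : ℕ → ℝ) (hlam : ∀ i, 0 < lam i) (n : ℕ) :
    0 < (G (fun j => C (lam j) * X) n 0 : ℝ[X]).coeff 0 := by
  induction n with
  | zero => rw [G, coeff_one_zero]; norm_num
  | succ n ih =>
    rw [G_succ_zero, coeff_add, finsetSum_coeff]
    exact add_pos_of_pos_of_nonneg ih (Finset.sum_nonneg fun i _ => G_coeff_nonneg lam hlam n i 0)

theorem nonpos_of_root {p : ℝ[X]} (h : ∀ k, 0 ≤ p.coeff k) (h0 : 0 < p.coeff 0) {r : ℝ}
    (hr : p.eval r = 0) : r ≤ 0 := by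
  by_contra hcon
  push Not at hcon
  rw [eval_eq_sum_range, Finset.sum_range_succ'] at hr
  have h1 : 0 ≤ ∑ k ∈ Finset.range p.natDegree, p.coeff (k + 1) * r ^ (k + 1) :=
    Finset.sum_nonneg fun k _ => mul_nonneg (h _) (pow_nonneg hcon.le _)
  rw [pow_zero, mul_one] at hr
  linarith

theorem real_roots (lam : ℕ → ℝ) (hlam : ∀ i, 0 < lam i) (n : ℕ) (z : ℂ)
    (hz : aeval z (e lam (n + 1)) = 0) : z.im = 0 := by
  by_contra hcon
  have key : ∀ w : ℂ, 0 < w.im → aeval w (e lam (n + 1)) ≠ 0 := by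
    intro w hw
    rw [aeval_e]
    exact G_ne_zero hw lam (fun k => (hlam _).le) (n + 1)
  rcases lt_or_gt_of_ne hcon with h | h
  · refine key (starRingEnd ℂ z) (by simpa using h) ?_
    have h2 : aeval (starRingEnd ℂ z) (e lam (n + 1)) =
        starRingEnd ℂ (aeval z (e lam (n + 1))) := by
      rw [aeval_conj]
    rw [h2, hz, map_zero]
  · exact key z h hz

theorem rootList_e (lam : ℕ → ℝ) (hlam : ∀ i, 0 < lam i) (n : ℕ) :
    RootList (e lam (n + 1)) ((e lam (n + 1)).roots.sort (· ≥ ·)) := by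
  refine ⟨Multiset.pairwise_sort _ _, ?_, Multiset.sort_eq _ _, ?_⟩
  · intro r hr
    rw [Multiset.mem_sort, mem_roots'] at hr
    refine nonpos_of_root (p := e lam (n + 1)) ?_ ?_ hr.2
    · rw [e_eq]
      exact G_coeff_nonneg lam hlam (n + 1) 0
    · rw [e_eq]
      exact G_coeff_zero lam hlam (n + 1)
  · rw [Multiset.length_sort, ← splits_iff_card_roots]
    exact splits_of_real _ (real_roots lam hlam n)

theorem leadingCoeff_pos (lam : ℕ → ℝ) (hlam : ∀ i, 0 < lam i) (n : ℕ) :
    0 < (e lam (n + 1)).leadingCoeff := by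
  have h0 : e lam (n + 1) ≠ 0 := by
    intro h
    have h1 := G_coeff_zero lam hlam (n + 1)
    rw [← e_eq, h, coeff_zero] at h1
    exact lt_irrefl _ h1
  refine lt_of_le_of_ne ?_ (leadingCoeff_ne_zero.2 h0).symm
  rw [leadingCoeff, e_eq]
  exact G_coeff_nonneg lam hlam (n + 1) 0 _

theorem coeff_step (lam : ℕ → ℝ) (n p k : ℕ) :
    (G (fun j => C (lam j) * X) (n + 1) p : ℝ[X]).coeff (k + 1) =
      ∑ i ∈ Finset.Ico p (n + 1), (G (fun j => C (lam j) * X) n i : ℝ[X]).coeff (k + 1) +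
        lam (n + 1) * ∑ i ∈ Finset.range p, (G (fun j => C (lam j) * X) n i : ℝ[X]).coeff k := by
  rw [G, coeff_add, finsetSum_coeff, mul_assoc, coeff_C_mul, coeff_X_mul, finsetSum_coeff]

theorem coeff_big (lam : ℕ → ℝ) (n : ℕ) :
    ∀ p k, n < k → (G (fun j => C (lam j) * X) n p : ℝ[X]).coeff k = 0 := by
  induction n with
  | zero =>
    intro p k hk
    rw [G, coeff_one, if_neg (by omega)]
  | succ n ih =>
    intro p k hk
    obtain ⟨k, rfl⟩ : ∃ j, k = j + 1 := ⟨k - 1, by omega⟩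
    rw [coeff_step, Finset.sum_eq_zero (fun i _ => ih i (k + 1) (by omega)),
      Finset.sum_eq_zero (fun i _ => ih i k (by omega))]
    simp

theorem coeff_top (lam : ℕ → ℝ) (n : ℕ) :
    ∀ p, p < n → (G (fun j => C (lam j) * X) n p : ℝ[X]).coeff n = 0 := by
  induction n with
  | zero =>
    intro p hp
    omega
  | succ n ih =>
    intro p hp
    rw [coeff_step, Finset.sum_eq_zero (fun i _ => coeff_big lam n i (n + 1) (by omega)),
      Finset.sum_eq_zero (fun i hi => ih i (by rw [Finset.mem_range] at hi; omega))]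
    simp

theorem coeff_diag (lam : ℕ → ℝ) (hlam : ∀ i, 0 < lam i) (n : ℕ) :
    0 < (G (fun j => C (lam j) * X) n n : ℝ[X]).coeff n := by
  induction n with
  | zero => rw [G, coeff_one_zero]; norm_num
  | succ n ih =>
    rw [coeff_step, Finset.Ico_self, Finset.sum_empty, zero_add]
    refine mul_pos (hlam _) ?_
    exact Finset.sum_pos' (fun i _ => G_coeff_nonneg lam hlam n i n) ⟨n, by simp, ih⟩

theorem natDegree_e (lam : ℕ → ℝ) (hlam : ∀ i, 0 < lam i) (n : ℕ) :
    (e lam (n + 1)).natDegree = n := by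
  rw [e_eq]
  apply le_antisymm
  · rw [natDegree_le_iff_coeff_eq_zero]
    intro k hk
    rcases Nat.lt_or_ge (n + 1) k with h | h
    · exact coeff_big lam (n + 1) 0 k h
    · have hk' : k = n + 1 := by omega
      rw [hk']
      exact coeff_top lam (n + 1) 0 (by omega)
  · apply le_natDegree_of_ne_zero
    apply ne_of_gt
    rw [G, Finset.range_zero, Finset.sum_empty, mul_zero, add_zero, finsetSum_coeff]
    exact Finset.sum_pos' (fun i _ => G_coeff_nonneg lam hlam n i n)
      ⟨n, by simp, coeff_diag lam hlam n⟩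

/-- For every sequence of positive reals and every `n ≥ 2` one has `e_{n-1} ⪯ e_n`, and `e_{n-1}`, `e_n`
have degrees `n - 2` and `n - 1`. -/
theorem result (lam : ℕ → ℝ) (hlam : ∀ i, 0 < lam i) (n : ℕ) (hn : 2 ≤ n) :
    (e lam (n - 1)).natDegree = n - 2 ∧ (e lam n).natDegree = n - 1 ∧
      Interlaces (e lam (n - 1)) (e lam n) := by
  obtain ⟨n, rfl⟩ := Nat.exists_eq_add_of_le' hn
  rw [show n + 2 - 1 = n + 1 by omega, show n + 2 - 2 = n by omega]
  refine ⟨natDegree_e lam hlam n, natDegree_e lam hlam (n + 1), ?_⟩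
  have ha := rootList_e lam hlam n
  have hb := rootList_e lam hlam (n + 1)
  refine ⟨_, _, ha, hb, ?_⟩
  refine chain_of_im ha.1 hb.1 ha.2.2.1 hb.2.2.1 (splits_of_real _ (real_roots lam hlam n))
    (splits_of_real _ (real_roots lam hlam (n + 1))) (leadingCoeff_pos lam hlam n)
    (leadingCoeff_pos lam hlam (n + 1)) ?_
  intro z hz
  rw [aeval_e, aeval_e]
  exact (G_rel_succ hz.le lam (fun k => (hlam k).le) (n + 1)).1

end Pool.Agent.Results.MP_9d2565_co.Interlacing
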